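import Mathlib

namespace Pool.Agent.Results.MP_a73859_co.Counter

open Finset

/-- A finite loopless multigraph on `Fin n` with edge set `Fin m` (parallel edges allowed). -/
structure MG (n m : ℕ) where
  ends : Fin m → Sym2 (Fin n)
  loopless : ∀ e, ¬ (ends e).IsDiag

namespace MG

variable {n m : ℕ} (G : MG n m)

/-- The simple graph underlying the spanning subgraph `(V, A)`. -/
def sub (A : Finset (Fin m)) : SimpleGraph (Fin n) :=
  SimpleGraph.fromEdgeSet (G.ends '' (A : Set (Fin m)))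

/-- Number of connected components of the spanning subgraph `(V, A)`. -/
noncomputable def c (A : Finset (Fin m)) : ℕ := Nat.card (G.sub A).ConnectedComponent

/-- Degree, counting edges with multiplicity. -/
def deg (v : Fin n) : ℕ := (univ.filter fun e => v ∈ G.ends e).card

/-- The flow polynomial evaluated at a real number. -/
noncomputable def flow (q : ℝ) : ℝ :=
  ∑ A : Finset (Fin m), (-1 : ℝ) ^ (m - A.card) * q ^ ((A.card : ℤ) - n + G.c A)

/-- At least four vertices, and connected after deleting any at most two vertices. -/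
def ThreeConn : Prop :=
  4 ≤ n ∧ ∀ S : Finset (Fin n), S.card ≤ 2 → ((G.sub univ).induce (S : Set (Fin n))ᶜ).Connected

def Eulerian : Prop := (G.sub univ).Connected ∧ ∀ v, Even (G.deg v)

end MG

def src : Fin 10 → Fin 4 := ![0, 0, 0, 0, 0, 0, 0, 1, 1, 2]
def tgt : Fin 10 → Fin 4 := ![1, 1, 1, 2, 2, 3, 3, 2, 3, 3]

def G0 : MG 4 10 where
  ends e := s(src e, tgt e)
  loopless := by decide

def adj (A : Finset (Fin 10)) (u v : Fin 4) : Bool :=
  decide (∃ e ∈ A, (src e = u ∧ tgt e = v) ∨ (src e = v ∧ tgt e = u))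

lemma adj_iff (A : Finset (Fin 10)) (u v : Fin 4) : (G0.sub A).Adj u v ↔ adj A u v = true := by
  have h : ∀ e, src e ≠ tgt e := by decide
  simp only [MG.sub, G0, SimpleGraph.fromEdgeSet_adj, Set.mem_image, Finset.mem_coe, adj,
    decide_eq_true_eq, Sym2.eq_iff]
  constructor
  · rintro ⟨⟨e, he, h1⟩, -⟩
    exact ⟨e, he, h1⟩
  · rintro ⟨e, he, h1⟩
    refine ⟨⟨e, he, h1⟩, ?_⟩
    rintro rfl
    rcases h1 with ⟨h1, h2⟩ | ⟨h1, h2⟩ <;> exact h e (h1.trans h2.symm)

def rch (a : Fin 4 → Fin 4 → Bool) (u v : Fin 4) : Bool :=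
  decide (u = v) || a u v || decide (∃ w, a u w = true ∧ a w v = true) ||
    decide (∃ w x, a u w = true ∧ a w x = true ∧ a x v = true)

def lab (a : Fin 4 → Fin 4 → Bool) (u : Fin 4) : Fin 4 :=
  if rch a u 0 then 0 else if rch a u 1 then 1 else if rch a u 2 then 2 else 3

def gr (b : Fin 6 → Bool) : Fin 4 → Fin 4 → Bool :=
  ![![false, b 0, b 1, b 2], ![b 0, false, b 3, b 4], ![b 1, b 3, false, b 5],
    ![b 2, b 4, b 5, false]]

def bits (A : Finset (Fin 10)) : Fin 6 → Bool :=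
  ![decide (0 ∈ A ∨ 1 ∈ A ∨ 2 ∈ A), decide (3 ∈ A ∨ 4 ∈ A), decide (5 ∈ A ∨ 6 ∈ A),
    decide (7 ∈ A), decide (8 ∈ A), decide (9 ∈ A)]

lemma adj_eq (A : Finset (Fin 10)) (u v : Fin 4) : adj A u v = gr (bits A) u v := by
  fin_cases u <;> fin_cases v <;> simp [adj, gr, bits, Fin.exists_fin_succ, src, tgt]

lemma lab1 : ∀ (b : Fin 6 → Bool) (u v : Fin 4), gr b u v = true → lab (gr b) u = lab (gr b) v := by
  decide +kernel

lemma lab2 : ∀ (b : Fin 6 → Bool) (u : Fin 4), rch (gr b) u (lab (gr b) u) = true := by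
  decide +kernel

def cc (b : Fin 6 → Bool) : ℕ := (univ.image (lab (gr b))).card

lemma rch_reach (A : Finset (Fin 10)) (u v : Fin 4) (h : rch (gr (bits A)) u v = true) :
    (G0.sub A).Reachable u v := by
  have ha : ∀ x y, gr (bits A) x y = true → (G0.sub A).Reachable x y := fun x y hxy =>
    ((adj_iff A x y).2 (by rw [adj_eq]; exact hxy)).reachable
  simp only [rch, Bool.or_eq_true, decide_eq_true_eq] at h
  rcases h with ((rfl | h) | ⟨w, h1, h2⟩) | ⟨w, x, h1, h2, h3⟩
  · rfl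
  · exact ha _ _ h
  · exact (ha _ _ h1).trans (ha _ _ h2)
  · exact ((ha _ _ h1).trans (ha _ _ h2)).trans (ha _ _ h3)

lemma reach_iff (A : Finset (Fin 10)) (u v : Fin 4) :
    (G0.sub A).Reachable u v ↔ lab (gr (bits A)) u = lab (gr (bits A)) v := by
  constructor
  · rintro ⟨p⟩
    induction p with
    | nil => rfl
    | cons h _ ih =>
      exact (lab1 _ _ _ (by rw [← adj_eq]; exact (adj_iff _ _ _).1 h)).trans ih
  · intro h
    have h1 := rch_reach A u _ (lab2 _ u)
    have h2 := rch_reach A v _ (lab2 _ v)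
    rw [h] at h1
    exact h1.trans h2.symm

lemma c_eq (A : Finset (Fin 10)) : G0.c A = cc (bits A) := by
  unfold MG.c cc
  let f : (G0.sub A).ConnectedComponent → (univ.image (lab (gr (bits A))) : Finset (Fin 4)) :=
    SimpleGraph.ConnectedComponent.lift (fun u => ⟨lab (gr (bits A)) u, by simp⟩)
      (fun u v p _ => Subtype.ext ((reach_iff A u v).1 ⟨p⟩))
  have hf : Function.Bijective f := by
    constructor
    · intro x y
      refine SimpleGraph.ConnectedComponent.ind₂ (fun u v h => ?_) x y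
      exact SimpleGraph.ConnectedComponent.sound ((reach_iff A u v).2 (congrArg Subtype.val h))
    · rintro ⟨x, hx⟩
      obtain ⟨u, -, rfl⟩ := Finset.mem_image.1 hx
      exact ⟨(G0.sub A).connectedComponentMk u, rfl⟩
  rw [Nat.card_eq_of_bijective f hf, Nat.card_eq_fintype_card, Fintype.card_coe]

def num (p r : ℤ) : ℤ :=
  ∑ A : Finset (Fin 10), (-1 : ℤ) ^ (10 - A.card) * p ^ (A.card + cc (bits A)) *
    r ^ (14 - (A.card + cc (bits A)))

lemma cc_le : ∀ b, cc b ≤ 4 := by decide +kernel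

lemma flow_eq (p r : ℤ) (hp : (p : ℝ) ≠ 0) (hr : (r : ℝ) ≠ 0) :
    G0.flow ((p : ℝ) / r) * ((p : ℝ) ^ 4 * (r : ℝ) ^ 10) = num p r := by
  unfold MG.flow num
  rw [Finset.sum_mul]
  push_cast
  refine Finset.sum_congr rfl fun A _ => ?_
  rw [c_eq]
  have h1 : A.card ≤ 10 := by simpa using A.card_le_univ
  have h2 := cc_le (bits A)
  obtain ⟨k, hk⟩ : ∃ k, 14 = (A.card + cc (bits A)) + k := ⟨14 - (A.card + cc (bits A)), by omega⟩
  have h3 : 14 - (A.card + cc (bits A)) = k := by omega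
  rw [h3]
  have h4 : ((A.card : ℤ) - 4 + (cc (bits A) : ℤ)) = ((A.card + cc (bits A) : ℕ) : ℤ) - (4 : ℕ) := by
    push_cast; ring
  rw [h4, zpow_sub₀ (div_ne_zero hp hr), zpow_natCast, zpow_natCast]
  have h5 : (r : ℝ) ^ 14 = (r : ℝ) ^ (A.card + cc (bits A)) * (r : ℝ) ^ k := by
    rw [← pow_add, ← hk]
  have h6 : (r : ℝ) ^ k = (r : ℝ) ^ 14 / (r : ℝ) ^ (A.card + cc (bits A)) := by
    rw [h5]; field_simp
  rw [h6, div_pow, div_pow]
  field_simp

lemma num1 : 0 < num 3 2 := by decide +kernel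
lemma num2 : num 9 5 < 0 := by decide +kernel

lemma cont : ContinuousOn G0.flow (Set.Icc (3 / 2) (9 / 5)) := by
  unfold MG.flow
  refine continuousOn_finsetSum _ fun A _ => continuousOn_const.mul ?_
  exact continuousOn_id.zpow₀ _ fun x hx => Or.inl (by have := hx.1; simp only [id]; linarith)

lemma top_eq : G0.sub univ = ⊤ := by
  ext u v
  rw [adj_iff, SimpleGraph.top_adj]
  revert u v
  decide +kernel

theorem result : ¬ ∀ (n m : ℕ) (G : MG n m), G.ThreeConn →
    ¬ (G.Eulerian ∧ Even ((m : ℤ) - n + 1)) → ∀ q : ℝ, 1 < q → q < 2 → G.flow q ≠ 0 := by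
  intro h
  have h3 : G0.ThreeConn := by
    refine ⟨le_rfl, fun S hS => ?_⟩
    rw [top_eq]
    have hne : Nonempty ((S : Set (Fin 4))ᶜ : Set (Fin 4)) := by
      by_contra hcon
      have : S = univ := by
        rw [Finset.eq_univ_iff_forall]
        intro x
        by_contra hx
        exact hcon ⟨⟨x, hx⟩⟩
      rw [this] at hS
      simp at hS
    have : (⊤ : SimpleGraph (Fin 4)).induce (S : Set (Fin 4))ᶜ = ⊤ := by
      ext u v
      simp [Subtype.ext_iff]
    rw [this]
    exact SimpleGraph.connected_top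
  have hE : ¬ (G0.Eulerian ∧ Even (((10 : ℕ) : ℤ) - (4 : ℕ) + 1)) := by
    rintro ⟨-, h2⟩
    revert h2
    decide
  have e1 := flow_eq 3 2 (by norm_num) (by norm_num)
  have e2 := flow_eq 9 5 (by norm_num) (by norm_num)
  have p1 : (0 : ℝ) < num 3 2 := by exact_mod_cast num1
  have p2 : (num 9 5 : ℝ) < 0 := by exact_mod_cast num2
  push_cast at e1 e2
  have q1 : 0 < G0.flow (3 / 2) := by
    by_contra hc
    push Not at hc
    nlinarith
  have q2 : G0.flow (9 / 5) < 0 := by
    by_contra hc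
    push Not at hc
    nlinarith
  obtain ⟨q, hq, hq0⟩ := intermediate_value_Icc' (by norm_num : (3 / 2 : ℝ) ≤ 9 / 5) cont
    (show (0 : ℝ) ∈ Set.Icc (G0.flow (9 / 5)) (G0.flow (3 / 2)) from ⟨q2.le, q1.le⟩)
  exact h 4 10 G0 h3 hE q (by linarith [hq.1]) (by linarith [hq.2]) hq0

end Pool.Agent.Results.MP_a73859_co.Counter
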